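import Mathlib
import Pool.Agent.Hhelper5.Roots.Grp

set_option autoImplicit false

namespace Pool.Agent.Results.MP_a87126_al.SharpTwo

/-- `G` embeds in `H` in such a way that every element of (the image of) `G` is the square of an
element of `H`. -/
def RootEmbeds (G H : Type) [Group G] [Group H] : Prop :=
  ∃ ι : G →* H, Function.Injective ι ∧ ∀ g : G, ∃ h : H, h ^ 2 = ι g

/-- `m(G)`: the least order of a finite group `H` in which `G` embeds with all elements of the
image being squares in `H`. -/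
noncomputable def m (G : Type) [Group G] : ℕ :=
  sInf {n : ℕ | ∃ (H : Type) (_ : Group H) (_ : Finite H), RootEmbeds G H ∧ Nat.card H = n}

/-- Bundled finite groups. -/
structure FinGroup where
  /-- the underlying type -/
  carrier : Type
  [group : Group carrier]
  [finite : Finite carrier]

attribute [instance] FinGroup.group FinGroup.finite

/-- the order `|G|` -/
noncomputable def FinGroup.order (G : FinGroup) : ℕ := Nat.card G.carrier

/-- `c* = limsup_{|G| → ∞} m(G) / |G|²`, the limit superior over all finite groups `G` as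
`|G| → ∞`. -/
noncomputable def cStar : ℝ :=
  Filter.limsup (fun G : FinGroup => (m G.carrier : ℝ) / (G.order : ℝ) ^ 2)
    (Filter.comap FinGroup.order Filter.atTop)

theorem m_le (G : Type) [Group G] [Finite G] : m G ≤ 2 * Nat.card G ^ 2 := by
  obtain ⟨H, hG, hF, hc, ι, h1, h2⟩ := Pool.Agent.Hhelper5.Roots.upper G
  exact Nat.sInf_le ⟨H, hG, hF, ⟨ι, h1, h2⟩, hc⟩

/-- There are arbitrarily large finite groups `G` with `m(G) = 2|G|²`, indeed for which every
finite overgroup as in the question has order at least `2|G|²`. -/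
theorem extremal (N : ℕ) : ∃ (G : Type) (_ : Group G) (_ : Finite G), N ≤ Nat.card G ∧
    m G = 2 * Nat.card G ^ 2 := by
  obtain ⟨p1, hp1, hp1p, hm1⟩ := Pool.Agent.Hhelper5.Roots.exists_prime_3 (2 * 128 ^ 2 + N)
  obtain ⟨p2, hp2, hp2p, hm2⟩ := Pool.Agent.Hhelper5.Roots.exists_prime_3 (2 * (128 * p1 ^ 2) ^ 2)
  have : Fact p1.Prime := ⟨hp1p⟩
  have : Fact p2.Prime := ⟨hp2p⟩
  have : NeZero p1 := ⟨hp1p.ne_zero⟩
  have : NeZero p2 := ⟨hp2p.ne_zero⟩
  refine ⟨Pool.Agent.Hhelper5.Roots.GG p1 p2, inferInstance, inferInstance, ?_, ?_⟩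
  · rw [Pool.Agent.Hhelper5.Roots.card_GG]
    have h1 : 0 < p2 := hp2p.pos
    have h2 : N ≤ p1 := by omega
    nlinarith
  · apply le_antisymm (m_le _)
    obtain ⟨H, hG, hF, hc, ι, h1, h2⟩ :=
      Pool.Agent.Hhelper5.Roots.upper (Pool.Agent.Hhelper5.Roots.GG p1 p2)
    refine le_csInf ⟨_, ⟨H, hG, hF, ⟨ι, h1, h2⟩, hc⟩⟩ ?_
    rintro n ⟨H, hG, hF, ⟨ι, h1, h2⟩, rfl⟩
    exact Pool.Agent.Hhelper5.Roots.lower_GG p1 p2 hm1 hm2 (by omega) hp2 H ι h1 h2

/-- The answer to Q1: `c* = 2`, so the constant `2` cannot be lowered; moreover `m(G) = 2|G|²`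
exactly for arbitrarily large finite groups `G`. -/
theorem result :
    cStar = 2 ∧
    ∀ N : ℕ, ∃ (G : Type) (_ : Group G) (_ : Finite G), N ≤ Nat.card G ∧
      m G = 2 * Nat.card G ^ 2 := by
  refine ⟨?_, extremal⟩
  unfold cStar
  rw [Filter.limsup_eq]
  apply IsLeast.csInf_eq
  constructor
  · show ∀ᶠ (G : FinGroup) in Filter.comap FinGroup.order Filter.atTop,
      (m G.carrier : ℝ) / (G.order : ℝ) ^ 2 ≤ 2
    refine Filter.Eventually.of_forall ?_
    intro G
    have h1 : (0 : ℝ) < (G.order : ℝ) ^ 2 := by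
      have : 0 < G.order := Nat.card_pos
      positivity
    rw [div_le_iff₀ h1]
    have h2 := m_le G.carrier
    have h3 : ((m G.carrier : ℕ) : ℝ) ≤ ((2 * Nat.card G.carrier ^ 2 : ℕ) : ℝ) := by
      exact_mod_cast h2
    push_cast at h3
    exact h3
  · intro a ha
    have ha' : ∀ᶠ (G : FinGroup) in Filter.comap FinGroup.order Filter.atTop,
      (m G.carrier : ℝ) / (G.order : ℝ) ^ 2 ≤ a := ha
    rw [Filter.eventually_comap, Filter.eventually_atTop] at ha'
    obtain ⟨N, hN⟩ := ha'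
    obtain ⟨G, hG, hF, hcard, hm⟩ := extremal N
    have h1 := hN (Nat.card G) hcard ⟨G⟩ rfl
    have h2 : (0 : ℝ) < (Nat.card G : ℝ) ^ 2 := by
      have : 0 < Nat.card G := Nat.card_pos
      positivity
    have h3 : ((m G : ℕ) : ℝ) / (Nat.card G : ℝ) ^ 2 = 2 := by
      rw [div_eq_iff h2.ne', hm]
      push_cast
      ring
    have h4 : ((m G : ℕ) : ℝ) / (Nat.card G : ℝ) ^ 2 ≤ a := h1
    rw [h3] at h4
    exact h4

end Pool.Agent.Results.MP_a87126_al.SharpTwo
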